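import Pool.Agent.H382R2.Final0

open Filter

namespace Pool.Agent.Results.MP_ca0a54_nt.HalfSpacingDyadic

/-- multiplicity of `s` as a zero of the Riemann zeta function (order of vanishing at `s`) -/
noncomputable def zmult (s : ℂ) : ℕ := analyticOrderNatAt riemannZeta s

/-- the number of nontrivial zeros of `ζ` with ordinate in `(0, t]`, with multiplicity -/
noncomputable def NZ (t : ℝ) : ℕ :=
  ∑ᶠ s ∈ {s : ℂ | riemannZeta s = 0 ∧ 0 < s.re ∧ s.re < 1 ∧ 0 < s.im ∧ s.im ≤ t}, zmult s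

/-- for `n ≥ 1`: the `n`-th positive ordinate of a nontrivial zero of `ζ`, the ordinates being
listed in nondecreasing order and repeated according to multiplicity -/
noncomputable def ord (n : ℕ) : ℝ := sInf {t : ℝ | n ≤ NZ t}

/-- For every `c > 1/2` and all large `T` there are consecutive ordinates in `[T, 2T]` at distance
less than `c` times the average spacing `2π / log T`. -/
theorem result (c : ℝ) (hc : 1 / 2 < c) : ∃ T0 : ℝ, ∀ T : ℝ, T0 ≤ T →
    ∃ n : ℕ, 1 ≤ n ∧ T ≤ ord n ∧ ord n ≤ ord (n + 1) ∧ ord (n + 1) ≤ 2 * T ∧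
      ord (n + 1) - ord n < c * (2 * Real.pi / Real.log T) := by
  obtain ⟨T0, h⟩ := SG.small_gap c hc
  refine ⟨T0, fun T hT => ?_⟩
  obtain ⟨n, hn, h1, h2, h3⟩ := h T hT
  exact ⟨n, hn, h1, SG.ord_mono hn (by omega), h2, h3⟩

end Pool.Agent.Results.MP_ca0a54_nt.HalfSpacingDyadic
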